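import Pool.Agent.V11155.Arrange

/-!
A simple game with at most three types of voters is weighted if and only if it is 3-trade robust.
-/

namespace Pool.Agent.Results.MP_35f484_co.ThreeTypes

open Finset Pool.Agent.V11155.TradeGames

/-- A game is weighted: there are nonnegative real weights and a real quota such that the
winning coalitions are those whose total weight is at least the quota. -/
def Weighted {N : Type} [Fintype N] (G : SimpleGame N) : Prop :=
  ∃ (w : N → ℝ) (q : ℝ), (∀ i, 0 ≤ w i) ∧ ∀ S : Finset N, G.win S ↔ q ≤ ∑ i ∈ S, w i

/-- A simple game with at most three types of voters is 3-trade robust if and only if it is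
weighted. -/
theorem result : ∀ (N : Type) [Fintype N] [DecidableEq N] (G : SimpleGame N),
    numTypes G ≤ 3 → (TradeRobust G 3 ↔ Weighted G) :=
  fun _ _ _ G ht => ⟨Pool.Agent.V11155.Arrange.weighted_of_tr G ht,
    fun h => Pool.Agent.V11155.Arrange.tradeRobust_of_weighted G h 3⟩

end Pool.Agent.Results.MP_35f484_co.ThreeTypes
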